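import Pool.Agent.U554.TD.Ord

/-!
# Ordinary primes, dimension by dimension, and the cubics `T(x, y, z) = 1`

Let `k = F` be a number field.

* `𝓢` is the semisimple abelian category of the motives of André over `k` of weight `0`, and
  `O b m X = gr^W_0 H_{m + 2 b}(X)(-b)` the pure part of weight `0` of the Borel-Moore homology (a motive of Nori)
  of a separated scheme `X` of finite type over `k`. If `X` is smooth and projective of pure dimension `n`,
  then `O b 0 X = H^{2 i}(X)(i)`, `i = n - b`.
* `I b X` is the motive of the intersection homology: `IH^{2 i}(X)(i)`, `i = n - b`, for projective `X` of pure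
  dimension `n`.
* `R : Reductions 𝓢`: the finite extensions `L` of `k`, their finite places, the Hodge slopes and the slopes of the
  Frobenius of a place; `R.big L` is a filter of large sets of places.
* `R.Ordinary M`: there is an `L` such that the Newton polygon of `M` is equal to the Hodge polygon at a
  large set of places of `L`.

The sets of density one are an admissible choice of the large sets (for these, `Ordinary M` implies that the set of
ordinary places of `k` has positive lower density); another one, with `L = k` only, are the sets which contain almost all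
elements of a given infinite set of places.

Let `T` be a trilinear form in three blocks `x`, `y`, `z` of `a₁`, `a₂`, `a₃` variables.

* `bilS T` is the closed subscheme `Z_T` of `𝔸^(a₂ + a₃)` given by the `a₁` bilinear equations
  `∂T/∂x_i (y, z) = 0`;
* `hypS T` is the smooth affine cubic hypersurface `Y_T : T(x, y, z) = 1` of dimension
  `n = a₁ + a₂ + a₃ - 1`; `O (n - j) 1 (hypS T)` is the pure part of weight `0` of `H^{2 j - 1}(Y_T)(j)`.

The known facts which are used are in `IsPureTheory`, `IsIntersection`, `Reductions`, `ArtinHave` (Artin motives are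
ordinary: all slopes are `0`) and `QuarticsHave` (`K3` surfaces have ordinary reduction at a set of places of density one, after a
finite extension: Bogomolov-Zarhin, Joshi-Rajan).
-/

set_option autoImplicit false

open CategoryTheory AlgebraicGeometry MvPolynomial Pool.Agent.Y116.UV Pool.Agent.U554.TW Pool.Agent.U554.TD
  Pool.Agent.U483.GU

universe v u

namespace Pool.Agent.Results.MP_db07cb_ag.CubicsByDimension

/-- **Ordinary primes, dimension by dimension, and the cubics `T(x, y, z) = 1`.**

(A) If two of the three blocks of `T` have at most `4` variables (the third one is arbitrary), or if one block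
has at most `3` variables, then `gr^W_0 H_{2 b}(Z_T)(-b)`, for all `b`, and `gr^W_0 H^{2 j - 1}(Y_T)(j)`, for all
`j ≥ 1`, are ordinary (after a finite extension, at a large set of places). This is a consequence of the theorem on `K3` surfaces.

(B) Let `d ≥ 1` and let `s` be any number. The following are equivalent, and all hold for `d = 1`:

1. (`d = 1`, or) `IH^{2 i}(X)(i)` is ordinary for all `i` and all projective `X` of dimension at most `d`;
2. `gr^W_0 H_{2 b}(X)(-b)` is ordinary for all `b` and all separated schemes `X` of finite type of dimension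
   at most `d`;
3. the same for all `Z_T` with a block of at most `d + 2` variables, and for all closed subschemes of affine
   spaces which are given by equations with `t_1, …, t_c` terms, `∑ max(t_i - 2, 0) ≤ d`;
4. `gr^W_0 H^{2 j - 1}(Y_T)(j)` is ordinary for all `j ≥ 1` and all `T` with a block of at most `d + 2`
   variables;
5. the same for all `T` with exactly `d + 2` variables `y` and all `j ≥ 1` with `j ≥ s`. -/
theorem result {𝓢 : Type u} [Category.{v} 𝓢] [Abelian 𝓢] (R : Reductions 𝓢) {k : Type} [Field k] [NumberField k]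
    (O : ℤ → ℤ → Sch k → 𝓢) (hO : IsPureTheory O) (I : ℤ → Sch k → 𝓢) (hI : IsIntersection O I)
    (hA : ArtinHave R.Ordinary O) (hq : QuarticsHave R.Ordinary O) :
    (∀ (a₁ a₂ a₃ : ℕ) (T : Fin a₁ → Fin a₂ → Fin a₃ → k),
      OneBlock 3 a₁ a₂ a₃ ∨ TwoBlocks 4 4 a₁ a₂ a₃ →
      AllWeights R.Ordinary O (bilS T) ∧
        ∀ j : ℕ, 1 ≤ j → R.Ordinary (O (a₁ + a₂ + a₃ - 1 - j) 1 (hypS T))) ∧
    ∀ (d : ℕ), 1 ≤ d → ∀ s : ℕ, List.TFAE [
      d = 1 ∨ ∀ X : Sch k, IsProjScheme X → topologicalKrullDim X.left ≤ d → ∀ b : ℤ, R.Ordinary (I b X),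
      ∀ X : Sch k, FT True X → topologicalKrullDim X.left ≤ d → AllWeights R.Ordinary O X,
      (∀ (a₁ a₂ a₃ : ℕ) (T : Fin a₁ → Fin a₂ → Fin a₃ → k), OneBlock (d + 2) a₁ a₂ a₃ →
        AllWeights R.Ordinary O (bilS T)) ∧
      ∀ (n : ℕ) (G : Finset (MvPolynomial (Fin n) k)), ∑ g ∈ G, (g.support.card - 2) ≤ d →
        AllWeights R.Ordinary O
          (aff k (MvPolynomial (Fin n) k ⧸ Ideal.span (G : Set (MvPolynomial (Fin n) k)))),
      ∀ (a₁ a₂ a₃ : ℕ) (T : Fin a₁ → Fin a₂ → Fin a₃ → k), OneBlock (d + 2) a₁ a₂ a₃ →
        ∀ j : ℕ, 1 ≤ j → R.Ordinary (O (a₁ + a₂ + a₃ - 1 - j) 1 (hypS T)),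
      ∀ (a₁ a₃ : ℕ) (T : Fin a₁ → Fin (d + 2) → Fin a₃ → k), ∀ j : ℕ, s ≤ j → 1 ≤ j →
        R.Ordinary (O (a₁ + (d + 2) + a₃ - 1 - j) 1 (hypS T))] := by
  refine ⟨fun _ _ _ T ha => add_small R.isAdditive hO hA hq T ha, fun d hd s => ?_⟩
  rw [intersection_iff hI R.isAdditive d]
  exact add_tfae R.isAdditive hO hA d hd s

end Pool.Agent.Results.MP_db07cb_ag.CubicsByDimension
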