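import Pool.Agent.U8.IH.Poly
import Pool.Agent.U644.OP.Alg

/-!
# Ordinary primes for the intersection cohomology of projective varieties: one set of primes

Q1 says that for every projective variety `X` over a number field `F` and every `n` there are infinitely
many places of `F` at which the Newton polygon of `IH^n(X)` is equal to the Hodge polygon.

**Theorem.** The following are equivalent:

1. Q1;
2. Q1 for the cohomology in the middle degree of the smooth projective varieties over `ℚ`;
3. for every smooth projective variety over `ℚ` there is ONE prime number at which its cohomology (in all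
  degrees) is unramified and ordinary;
4. for all number fields `F`, all number fields `L` which are contained in a CM field (or `L = ℚ`) and
  every finite family of projective varieties over `F` there are infinitely many prime numbers `p` which
  split completely in `L` such that the intersection cohomology of all the members, in all degrees, is
  ordinary at all places of `F` above `p`;
5. there is ONE infinite set `P` of prime numbers such that for every number field `F` and every
  projective variety `X` over `F`, `IH^n(X)` is ordinary at all places of `F` above almost all `p ∈ P`, for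
  all `n`, and almost all `p ∈ P` split completely in `F` if `F` is contained in a CM field.

So the field, the singularities, the degree and the choice of the prime number do not matter: if Q1 fails
for some `IH^n(X)`, then there is a smooth projective variety over `ℚ` whose cohomology in the middle
degree has only finitely many ordinary primes, and one whose cohomology is not ordinary at any prime.

Proof. If the Newton polygon of `V` is on or above the Hodge polygon, with the same end point, then the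
sum of the squares of its slopes is at most the one of the Hodge slopes, with equality only if the
polygons are equal (`Pool/Agent/U8/IH/Poly.lean`, proved there). This function is additive on direct
sums, and for `V ⊗ W` it is `dim W * sq V + dim V * sq W` plus a constant: so equality for a direct sum
of tensor products (Künneth formula) passes to all the factors. Hence one cohomology group of a product
controls all cohomology groups of its factors, and it can be moved to the middle degree (2 ⟹ 3). With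
elliptic curves which are supersingular at given primes and abelian varieties with complex multiplication
which are ordinary only at the primes which split completely in `L` (they exist if `L` is contained in a CM
field) one passes from one prime to infinitely many (3 ⟹ 4; this idea is used for smooth varieties in
`MP_adc574_ag.OnePrimeSuffices` by helper644), and 5 follows by a diagonal argument, because there are only
countably many varieties.
-/

set_option autoImplicit false

namespace Pool.Agent.Results.MP_db07cb_ag.OneSetOfPrimes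

open NumberField IsDedekindDomain Finset Pool.Agent.U644.OP
open Pool.Agent.U8.IH (LiesAbove pairSums factors_eq summand_eq)

/-- The data: the projective varieties over the number fields (up to isomorphism) with the Hodge–Tate
weights and the slopes of Frobenius of their intersection cohomology. A variety is a geometrically
integral scheme (or one may take all nonempty projective schemes of pure dimension). -/
structure Theory where
  /-- the projective varieties over the number field `F` -/
  Var : (F : Type) → [Field F] → [NumberField F] → Type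
  /-- the Hodge–Tate weights of `IH^n(X)`, with multiplicities -/
  weights : {F : Type} → [Field F] → [NumberField F] → Var F → ℕ → Multiset ℚ
  /-- `IH^n(X)` is unramified at the place `v` (for the primes `ℓ` not below `v`) -/
  Unram : {F : Type} → [Field F] → [NumberField F] → Var F → ℕ → HeightOneSpectrum (𝓞 F) → Prop
  /-- the slopes of the Frobenius at `v` on `IH^n(X)`, with multiplicities -/
  slopes : {F : Type} → [Field F] → [NumberField F] → Var F → ℕ → HeightOneSpectrum (𝓞 F) → Multiset ℚ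
  /-- the smooth projective varieties; then `IH^n(X)` is the cohomology of `X` -/
  Smooth : {F : Type} → [Field F] → [NumberField F] → Set (Var F)
  /-- the dimension -/
  dim : Var ℚ → ℕ
  /-- the abelian varieties over `ℚ` -/
  Ab : Set (Var ℚ)

/-- `v` is an ordinary prime for `IH^n(X)`: unramified, and the Newton polygon is the Hodge polygon. -/
def Theory.Ord (T : Theory) {F : Type} [Field F] [NumberField F] (X : T.Var F) (n : ℕ)
    (v : HeightOneSpectrum (𝓞 F)) : Prop :=
  T.Unram X n v ∧ T.slopes X n v = T.weights X n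

/-- All places above the prime number `p` are ordinary for the intersection cohomology of `X` in all
degrees. -/
def Theory.OrdAll (T : Theory) {F : Type} [Field F] [NumberField F] (X : T.Var F) (p : ℕ) : Prop :=
  ∀ v : HeightOneSpectrum (𝓞 F), (p : 𝓞 F) ∈ v.asIdeal → ∀ n, T.Ord X n v

/-- The prime number `p` splits completely in `L`: there are `[L : ℚ]` places above it. -/
def Splits (p : ℕ) (L : Type) [Field L] [NumberField L] : Prop :=
  Nat.card {v : HeightOneSpectrum (𝓞 L) // (p : 𝓞 L) ∈ v.asIdeal} = Module.finrank ℚ L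

/-- `L` is `ℚ` or it is contained in a CM field. -/
def InCM (L : Type) [Field L] [NumberField L] : Prop :=
  Module.finrank ℚ L = 1 ∨
    ∃ (K : Type) (_ : Field K) (_ : NumberField K), IsCMField K ∧ Nonempty (L →+* K)

/-- The known facts which are used. -/
structure Facts (T : Theory) : Prop where
  /-- there are countably many projective varieties over `ℚ` up to isomorphism -/
  countable : Countable (T.Var ℚ)
  /-- smooth projective varieties (Katz–Messing, Mazur, Faltings): for almost all `v` the cohomology is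
  unramified and the Newton polygon lies on or above the Hodge polygon, with the same end point -/
  mazur : ∀ X : T.Var ℚ, X ∈ T.Smooth → ∃ S : Set (HeightOneSpectrum (𝓞 ℚ)), S.Finite ∧
    ∀ v ∉ S, ∀ n, T.Unram X n v ∧ LiesAbove (T.slopes X n v) (T.weights X n)
  /-- the cohomology is zero in degrees greater than `2 dim X` -/
  bounded : ∀ X : T.Var ℚ, X ∈ T.Smooth → ∀ n, 2 * T.dim X < n → T.weights X n = 0
  /-- `H^0(X)` is not zero -/
  bottom : ∀ X : T.Var ℚ, X ∈ T.Smooth → T.weights X 0 ≠ 0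
  /-- `H^(2 dim X)(X)` is not zero -/
  top : ∀ X : T.Var ℚ, X ∈ T.Smooth → T.weights X (2 * T.dim X) ≠ 0
  /-- there are smooth projective varieties of every dimension -/
  exists_dim : ∀ a : ℕ, ∃ Y : T.Var ℚ, Y ∈ T.Smooth ∧ T.dim Y = a
  /-- the Künneth formula for the product of two smooth projective varieties -/
  kunneth : ∀ X Y : T.Var ℚ, X ∈ T.Smooth → Y ∈ T.Smooth → ∃ Z : T.Var ℚ, Z ∈ T.Smooth ∧
    T.dim Z = T.dim X + T.dim Y ∧
    (∀ n, T.weights Z n = ∑ x ∈ antidiagonal n, pairSums (T.weights X x.1) (T.weights Y x.2)) ∧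
    ∃ S : Set (HeightOneSpectrum (𝓞 ℚ)), S.Finite ∧ ∀ v ∉ S, ∀ n,
      T.slopes Z n v = ∑ x ∈ antidiagonal n, pairSums (T.slopes X x.1 v) (T.slopes Y x.2 v)
  /-- resolution of singularities and the decomposition theorem: `IH^n(X)` is a direct summand of the
  cohomology of a smooth projective variety `Y`, and the Newton polygons of `IH^n(X)` and of the
  complement lie on or above the Hodge polygons -/
  resolution : ∀ {F : Type} [Field F] [NumberField F] (X : T.Var F), ∃ Y : T.Var F, Y ∈ T.Smooth ∧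
    ∃ S : Set (HeightOneSpectrum (𝓞 F)), S.Finite ∧ ∀ n, ∃ w : Multiset ℚ,
      T.weights Y n = T.weights X n + w ∧ ∀ v ∉ S, T.Unram X n v ∧ ∃ s : Multiset ℚ,
        T.slopes Y n v = T.slopes X n v + s ∧ LiesAbove (T.slopes X n v) (T.weights X n) ∧
        LiesAbove s w
  /-- Weil restriction of smooth projective varieties -/
  weil : ∀ {F : Type} [Field F] [NumberField F] (X : T.Var F), X ∈ T.Smooth →
    ∃ R : T.Var ℚ, R ∈ T.Smooth ∧ ∃ S : Set ℕ, S.Finite ∧
      ∀ p, p.Prime → p ∉ S → T.OrdAll R p → T.OrdAll X p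
  /-- the product of a smooth projective variety and an abelian variety: at the prime numbers at which it
  is ordinary so is the abelian variety, and outside a finite set of primes, which depends only on `X`,
  so is `X` -/
  prod_ab : ∀ X : T.Var ℚ, X ∈ T.Smooth → ∃ S : Set ℕ, S.Finite ∧ ∀ B ∈ T.Ab, ∃ Z : T.Var ℚ,
    Z ∈ T.Smooth ∧ ∀ p, p.Prime → T.OrdAll Z p → T.OrdAll B p ∧ (p ∉ S → T.OrdAll X p)
  /-- products of two abelian varieties -/
  ab_mul : ∀ B ∈ T.Ab, ∀ B' ∈ T.Ab, ∃ C ∈ T.Ab, ∀ p, p.Prime → T.OrdAll C p →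
    T.OrdAll B p ∧ T.OrdAll B' p
  /-- elliptic curves with supersingular reduction at given primes -/
  supersingular : ∀ S : Set ℕ, S.Finite → ∃ E ∈ T.Ab, ∀ p ∈ S, p.Prime → ¬ T.OrdAll E p
  /-- an abelian variety with complex multiplication whose primes of good ordinary reduction split
  completely in `L`, if `L` is contained in a CM field -/
  cm : ∀ (L : Type) [Field L] [NumberField L], InCM L →
    ∃ B ∈ T.Ab, ∀ p, p.Prime → T.OrdAll B p → Splits p L

/-- Q1: every `IH^n(X)` has infinitely many ordinary primes. -/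
def OrdinaryPrimes (T : Theory) : Prop :=
  ∀ (F : Type) [Field F] [NumberField F] (X : T.Var F) (n : ℕ),
    {v : HeightOneSpectrum (𝓞 F) | T.Ord X n v}.Infinite

/-- Q1 for the middle degree of smooth projective varieties over `ℚ`. -/
def MiddleDegree (T : Theory) : Prop :=
  ∀ X : T.Var ℚ, X ∈ T.Smooth → {v : HeightOneSpectrum (𝓞 ℚ) | T.Ord X (T.dim X) v}.Infinite

/-- Every smooth projective variety over `ℚ` has one ordinary prime, for all degrees. -/
def OnePrime (T : Theory) : Prop :=
  ∀ X : T.Var ℚ, X ∈ T.Smooth → ∃ p, p.Prime ∧ T.OrdAll X p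

/-- Finite families have infinitely many common ordinary primes which split completely in a given
number field which is contained in a CM field. -/
def Families (T : Theory) : Prop :=
  ∀ (F : Type) [Field F] [NumberField F] (ι : Type) [Finite ι] (X : ι → T.Var F) (L : Type) [Field L]
    [NumberField L], InCM L → {p : ℕ | p.Prime ∧ Splits p L ∧ ∀ i, T.OrdAll (X i) p}.Infinite

/-- One infinite set of prime numbers for all number fields and all projective varieties; almost all its
elements split completely in a given number field which is contained in a CM field. -/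
def OneSet (T : Theory) : Prop :=
  ∃ P : Set ℕ, P.Infinite ∧ (∀ p ∈ P, p.Prime) ∧
    ∀ (F : Type) [Field F] [NumberField F] (X : T.Var F),
      {p ∈ P | ¬ ((InCM F → Splits p F) ∧ T.OrdAll X p)}.Finite

/-! ### Places and prime numbers -/

lemma exists_below {F : Type} [Field F] [NumberField F] (v : HeightOneSpectrum (𝓞 F)) :
    ∃ p : ℕ, p.Prime ∧ (p : 𝓞 F) ∈ v.asIdeal := by
  have hfin : Finite (𝓞 F ⧸ v.asIdeal) := Ideal.finiteQuotientOfFreeOfNeBot v.asIdeal v.ne_bot
  have hdom : IsDomain (𝓞 F ⧸ v.asIdeal) := Ideal.Quotient.isDomain v.asIdeal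
  obtain ⟨p, hp⟩ := CharP.exists (𝓞 F ⧸ v.asIdeal)
  have hp0 : p ≠ 0 := CharP.char_ne_zero_of_finite (𝓞 F ⧸ v.asIdeal) p
  have hprime : p.Prime := by
    rcases CharP.char_is_prime_or_zero (𝓞 F ⧸ v.asIdeal) p with h | h
    · exact h
    · exact absurd h hp0
  refine ⟨p, hprime, ?_⟩
  rw [← Ideal.Quotient.eq_zero_iff_mem]
  simp

lemma rat_mem_iff {v : HeightOneSpectrum (𝓞 ℚ)} {p : ℕ} (hp : p.Prime)
    (hv : (p : 𝓞 ℚ) ∈ v.asIdeal) (x : 𝓞 ℚ) :
    x ∈ v.asIdeal ↔ (p : ℤ) ∣ Rat.ringOfIntegersEquiv x := by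
  constructor
  · intro hx
    by_contra hnd
    have hcop : IsCoprime (p : ℤ) (Rat.ringOfIntegersEquiv x) :=
      (Nat.prime_iff_prime_int.1 hp).irreducible.coprime_iff_not_dvd.2 hnd
    obtain ⟨a, b, hab⟩ := hcop
    have h1 : Rat.ringOfIntegersEquiv.symm (a * p + b * Rat.ringOfIntegersEquiv x) = 1 := by
      rw [hab, map_one]
    rw [map_add, map_mul, map_mul, RingEquiv.symm_apply_apply, map_natCast] at h1
    have h2 : (1 : 𝓞 ℚ) ∈ v.asIdeal := by
      rw [← h1]
      exact add_mem (Ideal.mul_mem_left _ _ hv) (Ideal.mul_mem_left _ _ hx)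
    exact v.isPrime.ne_top ((Ideal.eq_top_iff_one _).2 h2)
  · rintro ⟨y, hy⟩
    have h1 : x = (p : 𝓞 ℚ) * Rat.ringOfIntegersEquiv.symm y := by
      apply Rat.ringOfIntegersEquiv.injective
      rw [map_mul, map_natCast, RingEquiv.apply_symm_apply, hy]
    rw [h1]
    exact Ideal.mul_mem_right _ _ hv

lemma rat_unique {v v' : HeightOneSpectrum (𝓞 ℚ)} {p : ℕ} (hp : p.Prime)
    (hv : (p : 𝓞 ℚ) ∈ v.asIdeal) (hv' : (p : 𝓞 ℚ) ∈ v'.asIdeal) : v = v' := by
  ext x
  rw [rat_mem_iff hp hv, rat_mem_iff hp hv']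

/-! ### The deduction -/

variable {T : Theory}

/-- `H^n(X)` is ordinary at almost all places at which `H^m(Z)` is. -/
def Dom (T : Theory) (Z : T.Var ℚ) (m : ℕ) (X : T.Var ℚ) (n : ℕ) : Prop :=
  ∃ S : Set (HeightOneSpectrum (𝓞 ℚ)), S.Finite ∧ ∀ v ∉ S, T.Ord Z m v → T.Ord X n v

lemma Dom.trans {Z Y X : T.Var ℚ} {k m n : ℕ} (h : Dom T Z k Y m) (h' : Dom T Y m X n) :
    Dom T Z k X n := by
  obtain ⟨S, hS, h⟩ := h
  obtain ⟨S', hS', h'⟩ := h'
  refine ⟨S ∪ S', hS.union hS', fun v hv hZ => ?_⟩
  simp only [Set.mem_union, not_or] at hv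
  exact h' v hv.2 (h v hv.1 hZ)

lemma card_pairSums (S H : Multiset ℚ) :
    Multiset.card (pairSums S H) = Multiset.card S * Multiset.card H := by
  induction S using Multiset.induction_on with
  | empty => simp [pairSums]
  | cons a S ih =>
    have h1 : pairSums (a ::ₘ S) H = H.map (fun b => a + b) + pairSums S H := by
      simp [pairSums]
    rw [h1, Multiset.card_add, ih, Multiset.card_map, Multiset.card_cons]
    ring

lemma sum_ne_zero {f g : ℕ → Multiset ℚ} {i j : ℕ} (hi : f i ≠ 0) (hj : g j ≠ 0) :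
    ∑ x ∈ antidiagonal (i + j), pairSums (f x.1) (g x.2) ≠ 0 := by
  intro h
  have h1 : Multiset.card (∑ x ∈ antidiagonal (i + j), pairSums (f x.1) (g x.2)) = 0 := by
    rw [h]; rfl
  rw [Multiset.card_sum, Finset.sum_eq_zero_iff] at h1
  have h2 := h1 (i, j) (mem_antidiagonal.2 rfl)
  rw [card_pairSums] at h2
  rcases Nat.mul_eq_zero.1 h2 with h3 | h3
  · exact hi (Multiset.card_eq_zero.1 h3)
  · exact hj (Multiset.card_eq_zero.1 h3)

/-- The factors of a product, in single degrees. -/
lemma product (hT : Facts T) {X Y : T.Var ℚ} (hX : X ∈ T.Smooth) (hY : Y ∈ T.Smooth) :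
    ∃ Z : T.Var ℚ, Z ∈ T.Smooth ∧ T.dim Z = T.dim X + T.dim Y ∧
      (∀ i j, T.weights X i ≠ 0 → T.weights Y j ≠ 0 → T.weights Z (i + j) ≠ 0) ∧
      ∃ S : Set (HeightOneSpectrum (𝓞 ℚ)), S.Finite ∧ ∀ v ∉ S, ∀ i j, T.Ord Z (i + j) v →
        (T.weights Y j ≠ 0 → T.Ord X i v) ∧ (T.weights X i ≠ 0 → T.Ord Y j v) := by
  obtain ⟨Z, hZ, hdim, hw, S, hS, hs⟩ := hT.kunneth X Y hX hY
  obtain ⟨S₁, hS₁, h₁⟩ := hT.mazur X hX
  obtain ⟨S₂, hS₂, h₂⟩ := hT.mazur Y hY
  refine ⟨Z, hZ, hdim, fun i j hi hj => by rw [hw]; exact sum_ne_zero hi hj,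
    S ∪ S₁ ∪ S₂, (hS.union hS₁).union hS₂, fun v hv i j hord => ?_⟩
  simp only [Set.mem_union, not_or] at hv
  have h3 := hord.2
  rw [hs v hv.1.1, hw] at h3
  have h4 := factors_eq (sX := fun i => T.slopes X i v) (wX := T.weights X)
    (sY := fun i => T.slopes Y i v) (wY := T.weights Y) (fun i => (h₁ v hv.1.2 i).2)
    (fun i => (h₂ v hv.2 i).2) h3 (rfl : i + j = i + j)
  exact ⟨fun h => ⟨(h₁ v hv.1.2 i).1, h4.1 h⟩, fun h => ⟨(h₂ v hv.2 j).1, h4.2 h⟩⟩

/-- One cohomology group of a smooth projective variety controls all cohomology groups of `X`. -/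
lemma all_degrees (hT : Facts T) {X : T.Var ℚ} (hX : X ∈ T.Smooth) :
    ∃ Z : T.Var ℚ, ∃ m : ℕ, Z ∈ T.Smooth ∧ ∀ n, Dom T Z m X n := by
  classical
  have key : ∀ J : Finset ℕ, ∃ Z : T.Var ℚ, ∃ m : ℕ, Z ∈ T.Smooth ∧ T.weights Z m ≠ 0 ∧
      ∀ n ∈ J, T.weights X n ≠ 0 → Dom T Z m X n := by
    intro J
    induction J using Finset.induction_on with
    | empty =>
      exact ⟨X, 0, hX, hT.bottom X hX, fun n hn => absurd hn (Finset.notMem_empty n)⟩
    | insert j J _ ih =>
      obtain ⟨Z, m, hZ, hZm, h⟩ := ih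
      by_cases hj : T.weights X j = 0
      · refine ⟨Z, m, hZ, hZm, fun n hn hn0 => ?_⟩
        rcases Finset.mem_insert.1 hn with rfl | hn
        · exact absurd hj hn0
        · exact h n hn hn0
      · obtain ⟨Z', hZ', _, hne, S, hS, hS'⟩ := product hT hZ hX
        refine ⟨Z', m + j, hZ', hne m j hZm hj, fun n hn hn0 => ?_⟩
        rcases Finset.mem_insert.1 hn with rfl | hn
        · exact ⟨S, hS, fun v hv ho => (hS' v hv m n ho).2 hZm⟩
        · exact Dom.trans ⟨S, hS, fun v hv ho => (hS' v hv m j ho).1 hj⟩ (h n hn hn0)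
  obtain ⟨Z, m, hZ, _, h⟩ := key (Finset.range (2 * T.dim X + 1))
  obtain ⟨S, hS, hm⟩ := hT.mazur X hX
  refine ⟨Z, m, hZ, fun n => ?_⟩
  by_cases hn : T.weights X n = 0
  · refine ⟨S, hS, fun v hv _ => ⟨(hm v hv n).1, ?_⟩⟩
    have h1 := (hm v hv n).2.1
    rw [hn] at h1 ⊢
    exact Multiset.card_eq_zero.1 (by simpa using h1)
  · have hle : n < 2 * T.dim X + 1 := by
      by_contra hlt
      exact hn (hT.bounded X hX n (by omega))
    exact h n (Finset.mem_range.2 hle) hn

/-- The middle degree of a smooth projective variety controls a given cohomology group. -/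
lemma to_middle (hT : Facts T) {Z : T.Var ℚ} (hZ : Z ∈ T.Smooth) (m : ℕ) :
    ∃ Z' : T.Var ℚ, Z' ∈ T.Smooth ∧ Dom T Z' (T.dim Z') Z m := by
  rcases le_total m (T.dim Z) with hle | hle
  · obtain ⟨Y, hY, hdY⟩ := hT.exists_dim (T.dim Z - m)
    obtain ⟨Z', hZ', hd, _, S, hS, hS'⟩ := product hT hZ hY
    have e : T.dim Z' = m + 2 * T.dim Y := by rw [hd, hdY]; omega
    refine ⟨Z', hZ', S, hS, fun v hv ho => ?_⟩
    rw [e] at ho
    exact (hS' v hv m (2 * T.dim Y) ho).1 (hT.top Y hY)
  · obtain ⟨Y, hY, hdY⟩ := hT.exists_dim (m - T.dim Z)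
    obtain ⟨Z', hZ', hd, _, S, hS, hS'⟩ := product hT hZ hY
    have e : T.dim Z' = m + 0 := by rw [hd, hdY]; omega
    refine ⟨Z', hZ', S, hS, fun v hv ho => ?_⟩
    rw [e] at ho
    exact (hS' v hv m 0 ho).1 (hT.bottom Y hY)

lemma onePrime (hT : Facts T) (h : MiddleDegree T) : OnePrime T := by
  intro X hX
  obtain ⟨Z, m, hZ, hdom⟩ := all_degrees hT hX
  obtain ⟨Z', hZ', hdom'⟩ := to_middle hT hZ m
  have h1 : ∀ n, Dom T Z' (T.dim Z') X n := fun n => hdom'.trans (hdom n)
  choose S hS hS' using h1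
  obtain ⟨S₀, hS₀, hm⟩ := hT.mazur X hX
  have hfin : (S₀ ∪ ⋃ n ∈ Finset.range (2 * T.dim X + 1), S n).Finite :=
    hS₀.union ((Finset.range (2 * T.dim X + 1)).finite_toSet.biUnion fun n _ => hS n)
  obtain ⟨v, hv, hvS⟩ := ((h Z' hZ').sdiff hfin).nonempty
  simp only [Set.mem_union, Set.mem_iUnion, not_or, not_exists] at hvS
  obtain ⟨p, hp, hpv⟩ := exists_below v
  refine ⟨p, hp, fun v' hv' n => ?_⟩
  rw [rat_unique hp hv' hpv]
  by_cases hn : n < 2 * T.dim X + 1
  · exact hS' n v (fun hmem => hvS.2 n (Finset.mem_range.2 hn) hmem) hv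
  · have h0 := hT.bounded X hX n (by omega)
    refine ⟨(hm v hvS.1 n).1, ?_⟩
    have h2 := (hm v hvS.1 n).2.1
    rw [h0] at h2 ⊢
    exact Multiset.card_eq_zero.1 (by simpa using h2)

/-- An arbitrary projective variety is controlled by a smooth one over `ℚ`. -/
lemma smooth_over_rat (hT : Facts T) {F : Type} [Field F] [NumberField F] (X : T.Var F) :
    ∃ R : T.Var ℚ, R ∈ T.Smooth ∧ ∃ S : Set ℕ, S.Finite ∧
      ∀ p, p.Prime → p ∉ S → T.OrdAll R p → T.OrdAll X p := by
  obtain ⟨Y, hY, S, hS, hn⟩ := hT.resolution X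
  obtain ⟨R, hR, S', hS', hR'⟩ := hT.weil Y hY
  refine ⟨R, hR, S' ∪ {p : ℕ | p.Prime ∧ ∃ v ∈ S, (p : 𝓞 F) ∈ v.asIdeal},
    hS'.union (finite_below hS), fun p hp hpS hord v hv n => ?_⟩
  simp only [Set.mem_union, not_or] at hpS
  have hvS : v ∉ S := fun hmem => hpS.2 ⟨hp, v, hmem, hv⟩
  obtain ⟨w, hw, hv2⟩ := hn n
  obtain ⟨hu, s, hs, h1, h2⟩ := hv2 v hvS
  have h3 := (hR' p hp hpS.1 hord v hv n).2
  rw [hs, hw] at h3
  exact ⟨hu, summand_eq h1 h2 h3⟩

lemma pair_smooth (hT : Facts T) {X Y : T.Var ℚ} (hX : X ∈ T.Smooth) (hY : Y ∈ T.Smooth) :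
    ∃ Z : T.Var ℚ, Z ∈ T.Smooth ∧ ∃ S : Set ℕ, S.Finite ∧
      ∀ p, p.Prime → p ∉ S → T.OrdAll Z p → T.OrdAll X p ∧ T.OrdAll Y p := by
  obtain ⟨Z, hZ, _, _, S, hS, h⟩ := product hT hX hY
  refine ⟨Z, hZ, {p : ℕ | p.Prime ∧ ∃ v ∈ S, (p : 𝓞 ℚ) ∈ v.asIdeal}, finite_below hS,
    fun p hp hpS hord => ⟨fun v hv n => ?_, fun v hv n => ?_⟩⟩
  · have hvS : v ∉ S := fun hmem => hpS ⟨hp, v, hmem, hv⟩
    exact (h v hvS n 0 (hord v hv (n + 0))).1 (hT.bottom Y hY)
  · have hvS : v ∉ S := fun hmem => hpS ⟨hp, v, hmem, hv⟩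
    exact (h v hvS 0 n (hord v hv (0 + n))).2 (hT.bottom X hX)

lemma family (hT : Facts T) {F : Type} [Field F] [NumberField F] {ι : Type} [Finite ι]
    (X : ι → T.Var F) : ∃ R : T.Var ℚ, R ∈ T.Smooth ∧ ∃ S : Set ℕ, S.Finite ∧
      ∀ p, p.Prime → p ∉ S → T.OrdAll R p → ∀ i, T.OrdAll (X i) p := by
  classical
  have := Fintype.ofFinite ι
  have key : ∀ J : Finset ι, ∃ R : T.Var ℚ, R ∈ T.Smooth ∧ ∃ S : Set ℕ, S.Finite ∧
      ∀ p, p.Prime → p ∉ S → T.OrdAll R p → ∀ i ∈ J, T.OrdAll (X i) p := by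
    intro J
    induction J using Finset.induction_on with
    | empty =>
      obtain ⟨Y, hY, _⟩ := hT.exists_dim 0
      exact ⟨Y, hY, ∅, Set.finite_empty, fun p _ _ _ i hi => absurd hi (Finset.notMem_empty i)⟩
    | insert j J _ ih =>
      obtain ⟨R, hR, S, hS, h⟩ := ih
      obtain ⟨R', hR', S', hS', h'⟩ := smooth_over_rat hT (X j)
      obtain ⟨Z, hZ, S'', hS'', h''⟩ := pair_smooth hT hR hR'
      refine ⟨Z, hZ, S ∪ S' ∪ S'', (hS.union hS').union hS'', fun p hp hpS ho i hi => ?_⟩
      simp only [Set.mem_union, not_or] at hpS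
      obtain ⟨h1, h2⟩ := h'' p hp hpS.2 ho
      rcases Finset.mem_insert.mp hi with rfl | hi
      · exact h' p hp hpS.1.2 h2
      · exact h p hp hpS.1.1 h1 i hi
  obtain ⟨R, hR, S, hS, h⟩ := key Finset.univ
  exact ⟨R, hR, S, hS, fun p hp hpS ho i => h p hp hpS ho i (Finset.mem_univ i)⟩

lemma inCM_rat : InCM ℚ := Or.inl (Module.finrank_self ℚ)

lemma families (hT : Facts T) (h : OnePrime T) : Families T := by
  intro F _ _ ι _ X L _ _ hL hfin
  obtain ⟨R, hR, S, hS, hRX⟩ := family hT X
  obtain ⟨S', hS', hR'⟩ := hT.prod_ab R hR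
  obtain ⟨E, hE, hE'⟩ := hT.supersingular
    (S ∪ S' ∪ {p : ℕ | p.Prime ∧ Splits p L ∧ ∀ i, T.OrdAll (X i) p}) ((hS.union hS').union hfin)
  obtain ⟨B, hB, hB'⟩ := hT.cm L hL
  obtain ⟨C, hC, hC'⟩ := hT.ab_mul E hE B hB
  obtain ⟨Z, hZ, hZ'⟩ := hR' C hC
  obtain ⟨p, hp, hord⟩ := h Z hZ
  obtain ⟨h1, h2⟩ := hZ' p hp hord
  obtain ⟨h3, h4⟩ := hC' p hp h1
  have h5 : p ∉ S ∪ S' ∪ {p : ℕ | p.Prime ∧ Splits p L ∧ ∀ i, T.OrdAll (X i) p} :=
    fun hmem => hE' p hmem hp h3
  simp only [Set.mem_union, not_or] at h5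
  exact h5.2 ⟨hp, hB' p hp h4, hRX p hp h5.1.1 (h2 h5.1.2)⟩

lemma ordinaryPrimes (h : Families T) : OrdinaryPrimes T := by
  intro F _ _ X n hfin
  have hinf := h F Unit (fun _ => X) ℚ inCM_rat
  obtain ⟨p, ⟨hp, _, hord⟩, hpn⟩ := (hinf.sdiff (finite_below hfin)).nonempty
  obtain ⟨v, hv⟩ := exists_above F hp
  exact hpn ⟨hp, v, hord () v hv n, hv⟩

/-- The diagonal argument. -/
lemma diagonal {Q : ℕ → ℕ → Prop} (hQ : ∀ k, {p : ℕ | p.Prime ∧ ∀ i ≤ k, Q i p}.Infinite) :
    ∃ P : Set ℕ, P.Infinite ∧ (∀ p ∈ P, p.Prime) ∧ ∀ i, {p ∈ P | ¬ Q i p}.Finite := by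
  have h1 : ∀ k N : ℕ, ∃ p, N < p ∧ p.Prime ∧ ∀ i ≤ k, Q i p := by
    intro k N
    obtain ⟨p, hp, hN⟩ := (hQ k).exists_gt N
    exact ⟨p, hN, hp⟩
  choose f hf using h1
  let g : ℕ → ℕ := fun k => Nat.rec (f 0 0) (fun k q => f (k + 1) q) k
  have hg0 : g 0 = f 0 0 := rfl
  have hgs : ∀ k, g (k + 1) = f (k + 1) (g k) := fun k => rfl
  have hmono : StrictMono g := strictMono_nat_of_lt_succ fun k => by
    rw [hgs]; exact (hf (k + 1) (g k)).1
  have hprime : ∀ k, (g k).Prime := by
    intro k
    cases k with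
    | zero => rw [hg0]; exact (hf 0 0).2.1
    | succ k => rw [hgs]; exact (hf (k + 1) (g k)).2.1
  have hall : ∀ k, ∀ i ≤ k, Q i (g k) := by
    intro k
    cases k with
    | zero => rw [hg0]; exact (hf 0 0).2.2
    | succ k => rw [hgs]; exact (hf (k + 1) (g k)).2.2
  refine ⟨Set.range g, Set.infinite_range_of_injective hmono.injective, ?_, fun i => ?_⟩
  · rintro p ⟨k, rfl⟩
    exact hprime k
  · refine ((Set.finite_lt_nat i).image g).subset ?_
    rintro p ⟨⟨k, rfl⟩, hk⟩
    refine ⟨k, ?_, rfl⟩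
    by_contra hlt
    exact hk (hall k i (not_lt.1 hlt))

lemma oneSet (hT : Facts T) (h : Families T) : OneSet T := by
  classical
  have hcount := hT.countable
  obtain ⟨Y₀, _, _⟩ := hT.exists_dim 0
  have hne : Nonempty (T.Var ℚ) := ⟨Y₀⟩
  obtain ⟨e, he⟩ := exists_surjective_nat (T.Var ℚ)
  obtain ⟨P, hP, hPp, hPfin⟩ := diagonal (Q := fun i p => T.OrdAll (e i) p) (by
    intro k
    refine (h ℚ (Fin (k + 1)) (fun i => e i) ℚ inCM_rat).mono ?_
    rintro p ⟨hp, _, hord⟩
    exact ⟨hp, fun i hi => hord ⟨i, Nat.lt_succ_of_le hi⟩⟩)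
  refine ⟨P, hP, hPp, fun F _ _ X => ?_⟩
  obtain ⟨R, _, S, hS, hR⟩ := smooth_over_rat hT X
  obtain ⟨i, hi⟩ := he R
  have hsplit : ∃ j, ∀ p ∈ P, T.OrdAll (e j) p → InCM F → Splits p F := by
    by_cases hF : InCM F
    · obtain ⟨B, _, hB⟩ := hT.cm F hF
      obtain ⟨j, hj⟩ := he B
      exact ⟨j, fun p hp ho _ => hB p (hPp p hp) (by rw [← hj]; exact ho)⟩
    · exact ⟨0, fun p _ _ hF' => absurd hF' hF⟩
  obtain ⟨j, hj⟩ := hsplit
  refine (((hPfin i).union (hPfin j)).union hS).subset ?_
  rintro p ⟨hpP, hp⟩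
  by_contra hnot
  simp only [Set.mem_union, not_or] at hnot
  have h1 : T.OrdAll R p := by
    by_contra hno
    exact hnot.1.1 ⟨hpP, by rw [hi]; exact hno⟩
  have h2 : T.OrdAll (e j) p := by
    by_contra hno
    exact hnot.1.2 ⟨hpP, hno⟩
  exact hp ⟨hj p hpP h2, hR p (hPp p hpP) hnot.2 h1⟩

lemma families_of_oneSet (hT : Facts T) (h : OneSet T) : Families T := by
  intro F _ _ ι _ X L _ _ hL
  obtain ⟨P, hP, hPp, hfin⟩ := h
  obtain ⟨B, _, hB⟩ := hT.cm L hL
  have h1 : (⋃ i, {p ∈ P | ¬ ((InCM F → Splits p F) ∧ T.OrdAll (X i) p)}).Finite :=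
    Set.finite_iUnion fun i => hfin F (X i)
  refine (hP.sdiff (h1.union (hfin ℚ B))).mono ?_
  rintro p ⟨hpP, hnot⟩
  have h2 : T.OrdAll B p := by
    by_contra hno
    exact hnot (Or.inr ⟨hpP, fun h => hno h.2⟩)
  refine ⟨hPp p hpP, hB p (hPp p hpP) h2, fun i => ?_⟩
  by_contra hno
  exact hnot (Or.inl (Set.mem_iUnion.2 ⟨i, hpP, fun h => hno h.2⟩))

/-- **One set of primes.** Q1 for the intersection cohomology of all projective varieties over all number
fields is equivalent to Q1 in the middle degree for the smooth projective varieties over `ℚ`, to the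
existence of one ordinary prime for every smooth projective variety over `ℚ`, to infinitely many common
ordinary primes of finite families (split completely in a number field contained in a CM field), and to the
existence of one infinite set of prime
numbers which are ordinary for every projective variety over every number field, up to finitely many. -/
theorem result (T : Theory) (hT : Facts T) :
    List.TFAE [OrdinaryPrimes T, MiddleDegree T, OnePrime T, Families T, OneSet T] := by
  tfae_have 1 → 2 := fun h X _ => h ℚ X (T.dim X)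
  tfae_have 2 → 3 := onePrime hT
  tfae_have 3 → 4 := families hT
  tfae_have 4 → 1 := ordinaryPrimes
  tfae_have 4 → 5 := oneSet hT
  tfae_have 5 → 4 := families_of_oneSet hT
  tfae_finish

end Pool.Agent.Results.MP_db07cb_ag.OneSetOfPrimes
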