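import Pool.Agent.U41.OP.Fam

/-!
# Ordinary primes for intersection cohomology with orthogonal pieces

`K` is a number field.  The `A i` are finitely many pure motives over `K` with multiplication by totally
real or CM fields `(A i).E`, each with its own finite set `S i` of bad residue characteristics (over `K`
the `ℓ`-adic monodromy groups are connected, for one prime `ℓ`).

A motive `A` is *orthogonal* (`IsOrthogonal`) if its weight is `2 m`, its field `E` of multiplications is
totally real and `A` has a symmetric `E`-bilinear form.  What is used of the form: at the places `v` of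
degree one the crystalline realisation is a lattice with a perfect symmetric form, Frobenius multiplies
the form by `p ^ (2 m)`, and its elementary divisors are given by the Hodge slopes (`CrysLattice`).

The *excess* of the `σ`-part, for an embedding `σ` of `E`, is the sum of `m - a` over the Hodge slopes
`a < m`.  The order at `p` of the value at `-p ^ m` of the Frobenius polynomial is at least `n m` minus the
excess, and if the value is not zero, the order is *congruent modulo two* to `n m` minus the excess (the
parity of the order of `det (1 + g)` for an isometry `g`, i.e. of the valuation of the spinor norm of `g`;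
proved here for lattices over valuation rings).  So if the order is too large, it is too large by at
least two, and this at all embeddings in a Frobenius orbit: orthogonal motives need only half of the
orbit condition of the starting result `MP_0dad22_ag/OrdinarySummands`.

Theorem.  Suppose that an element `γ` of the Galois group of `K` is `Suitable` for all `A i`: at every
vertex of every Hodge polygon the defect condition of `OrdinarySummands` holds, or the motive is
orthogonal, the vertex is an end of the middle segment, the middle slope has multiplicity at most one,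
and the sum of the excesses of all embeddings is at most *twice* the number of elements of the orbit.
Let `V j` (`j` in a finite set) be the intersection cohomology groups of projective varieties over a
subfield `K₀` of `K`, or other strictly compatible systems, which over `K` are, up to a twist, direct
summands of direct sums of tensor products of pieces of the `A i`.  Then the places of `K₀` at which all
`V j` are ordinary have positive lower density, at least the proportion of the suitable elements divided
by `[K : K₀]`.  The proportion is one if the identity is suitable.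

Example: `K = K₀`, `E = ℚ`, an orthogonal motive of rank five and weight two with Hodge numbers `2, 1, 2`
(the identity is suitable, as the excess is two; the defect condition does not hold), and the products of
the corresponding varieties with elliptic curves, abelian surfaces and K3 surfaces.
-/

set_option autoImplicit false

namespace Pool.Agent.Results.MP_db07cb_ag.OrthogonalPieces

open NumberField IsDedekindDomain Polynomial Filter Topology
open Pool.Agent.W401.Cheb Pool.Agent.W528.Ord Pool.Agent.R915.Ord Pool.Agent.W850.Ord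
open Pool.Agent.U41.OP

/-- The `V ℓ'` are strictly compatible: at the places of degree one outside `T` the characteristic
polynomial of the geometric Frobenius element (the inverse of `γ`) is `F v`. -/
def StrictlyCompatible {K₀ : Type} [Field K₀] [NumberField K₀] (T : Finset ℕ) {r : ℕ}
    (V : ∀ (ℓ' : ℕ) [Fact ℓ'.Prime], GK K₀ →* Matrix.GeneralLinearGroup (Fin r) ℚ_[ℓ'])
    (F : HeightOneSpectrum (𝓞 K₀) → Polynomial ℤ) : Prop :=
  ∀ (ℓ' : ℕ) [Fact ℓ'.Prime] (v₀ : HeightOneSpectrum (𝓞 K₀)), MultSystem.IsDeg1 T v₀ →
    Ideal.absNorm v₀.asIdeal ≠ ℓ' → ∀ γ : GK K₀, IsFrob v₀ γ →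
      (V ℓ' γ⁻¹ : Matrix (Fin r) (Fin r) ℚ_[ℓ']).charpoly = (F v₀).map (Int.castRingHom ℚ_[ℓ'])

/-- `v₀` has degree one, and for every prime `ℓ'` different from the residue characteristic `p = N v₀`
and every embedding `τ` of the field of algebraic numbers the Newton polygon of `V ℓ'` at `v₀` has the
slopes `H`. -/
def Ordinary {K₀ : Type} [Field K₀] [NumberField K₀] {r : ℕ}
    (V : ∀ (ℓ' : ℕ) [Fact ℓ'.Prime], GK K₀ →* Matrix.GeneralLinearGroup (Fin r) ℚ_[ℓ'])
    (H : Multiset ℕ) (v₀ : HeightOneSpectrum (𝓞 K₀)) : Prop :=
  ∃ (p : ℕ) (_ : Fact p.Prime), Ideal.absNorm v₀.asIdeal = p ∧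
    ∀ (ℓ' : ℕ) [Fact ℓ'.Prime], p ≠ ℓ' → ∀ γ : GK K₀, IsFrob v₀ γ →
      ∀ τ : algebraicClosure ℚ (PadicAlgCl ℓ') →+* PadicAlgCl p,
        NewtonTau (V ℓ' γ⁻¹ : Matrix (Fin r) (Fin r) ℚ_[ℓ']) τ H

theorem ordinary_of {K₀ : Type} [Field K₀] [NumberField K₀] (T : Finset ℕ) {r : ℕ}
    (V : ∀ (ℓ' : ℕ) [Fact ℓ'.Prime], GK K₀ →* Matrix.GeneralLinearGroup (Fin r) ℚ_[ℓ'])
    (F : HeightOneSpectrum (𝓞 K₀) → Polynomial ℤ) (H : Multiset ℕ) (hV : StrictlyCompatible T V F)
    (v₀ : HeightOneSpectrum (𝓞 K₀)) (hv : MultSystem.IsDeg1 T v₀)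
    (hN : NewtonSlopes (Ideal.absNorm v₀.asIdeal) (F v₀) H) : Ordinary V H v₀ := by
  have hN' := hN
  obtain ⟨hp, -⟩ := hN
  refine ⟨Ideal.absNorm v₀.asIdeal, hp, rfl, ?_⟩
  intro ℓ' _ hne γ hγ τ
  exact newtonTau_of _ τ _ (F v₀) (hV ℓ' v₀ hv hne γ hγ) hN'

theorem result (K₀ K : Type) [Field K₀] [NumberField K₀] [Field K] [NumberField K] [Algebra K₀ K]
    (ℓ : ℕ) [Fact ℓ.Prime] {ι : Type} [Fintype ι] (A : ι → MotSystem K ℓ)
    (χ : GK K →* (PadicAlgCl ℓ)ˣ) (S : ι → Finset ℕ) (hA : ∀ i, (A i).IsMotive χ (S i))
    (hγ : ∃ γ : GK K, ∀ i, Suitable (A i) (S i) γ)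
    (T : Finset ℕ) (ν : Type) [Finite ν] (r : ν → ℕ)
    (V : ∀ (j : ν) (ℓ' : ℕ) [Fact ℓ'.Prime], GK K₀ →* Matrix.GeneralLinearGroup (Fin (r j)) ℚ_[ℓ'])
    (F : ν → HeightOneSpectrum (𝓞 K₀) → ℤ[X]) (H : ν → Multiset ℕ)
    (hV : ∀ j, StrictlyCompatible T (V j) (F j)) (hF : ∀ j, IsSummand A T (F j) (H j)) :
    0 < lowerDensity (fun v₀ : HeightOneSpectrum (𝓞 K₀) => ∀ j, Ordinary (V j) (H j) v₀) ∧
    suitProportion A S / (Module.finrank K₀ K : ℝ) ≤
      lowerDensity (fun v₀ : HeightOneSpectrum (𝓞 K₀) => ∀ j, Ordinary (V j) (H j) v₀) ∧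
    ((∀ i, Suitable (A i) (S i) 1) → suitProportion A S = 1) := by
  have : FiniteDimensional K₀ K := Module.Finite.of_restrictScalars_finite ℚ K₀ K
  have hd : (0 : ℝ) < (Module.finrank K₀ K : ℝ) := by exact_mod_cast Module.finrank_pos
  have key : suitProportion A S / (Module.finrank K₀ K : ℝ) ≤
      lowerDensity (fun v₀ : HeightOneSpectrum (𝓞 K₀) => ∀ j, Ordinary (V j) (H j) v₀) := by
    refine (lower_below_suit A χ S hA).trans (lowerDensity_le_of_finite _ _ T ?_)
    rintro v₀ ⟨v, h0, hg⟩ hT j
    have e := under_norm v hg.1 v₀ h0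
    refine ordinary_of T (V j) (F j) (H j) (hV j) v₀ ⟨e ▸ hg.1, hT⟩ ?_
    exact newton_of_good' A χ S hA (hF j) v₀ v h0 hg (e ▸ hT)
  exact ⟨lt_of_lt_of_le (div_pos (suitProportion_pos A S hγ) hd) key, key, suitProportion_one A S⟩

end Pool.Agent.Results.MP_db07cb_ag.OrthogonalPieces
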