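import Pool.Agent.U152.OP.Thy

/-!
# Ordinary primes: one prime and parities suffice

`SlopeTheory` describes the smooth projective varieties over a number field `F` (slopes of Frobenius
at the maximal ideals `p`, Hodge numbers), three constructions (`X × P^1`, the Hilbert scheme of two
points, the blow-up of `P^N` in two disjoint varieties), and the intersection cohomology of all
projective varieties.  All fields are standard facts.

Theorem.  Suppose that every smooth projective geometrically connected variety `X` of positive
dimension over `F` has ONE maximal ideal `p` at which its cohomology is unramified and such that, for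
all `i` and `a`, the multiplicity of the slope `a` in `H^i(X)` at `p` is congruent MODULO TWO to the
Hodge number `h^{a, i - a}` (to `0` if `a` is not an integer).  Then for finitely many such `X` there
are infinitely many `p` at which all of them are ordinary in all degrees, and Q1 holds for all
projective varieties over `F`.  The same with two replaced by any even modulus `M` (`M = 0`: one
ordinary prime for every variety).

The proof: the generating function of the slopes of the Hilbert scheme of two points is
`(P(s, t) ^ 2 + P(-s ^ 2, t ^ 2)) / 2 + (L + ... + L ^ (n - 1)) P`; the division by two turns
congruences modulo `2 ^ k` for `X` and `Hilb^2 X` into congruences modulo `2 ^ (k + 1)` for `X`.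
The blow-ups allow to use them for all the varieties `X`, `Hilb^2 X`, `Hilb^2 Hilb^2 X`, ... at the
same `p`, and to avoid finitely many `p`.  Finally the multiplicities are bounded by Betti numbers,
which do not depend on `p`.
-/

namespace Pool.Agent.Results.MP_db07cb_ag.ParityAtOnePrime

open Pool.Agent.U152.OP

universe u v w

/-- **Theorem.** -/
theorem result (T : SlopeTheory.{u, v, w}) (M : ℕ) (hM : 2 ∣ M) :
    (T.CongruencePrime M ↔ T.OrdinaryPrimes) ∧ (T.CongruencePrime M → T.Q1) :=
  ⟨SlopeTheory.main M hM, fun h => SlopeTheory.toQ1 ((SlopeTheory.main M hM).1 h)⟩

end Pool.Agent.Results.MP_db07cb_ag.ParityAtOnePrime
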